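import Pool.Agent.H98.SD.TargetsM
import Pool.Agent.H98.SD.Lib
import Pool.Agent.H7.HD.All

/-!
Board sd2, row BDX: lemmas on the codes of the bounded subsets.
-/

open Ordinal Cardinal Order Set
open scoped ZFSet
open _root_.HD _root_.HD.SD

universe u

namespace Pool.Agent.H13.SD

/-- the least codes of the subsets of `m` -/
def Bm (en : Ordinal.{u} → ZFSet.{u}) (L : Cardinal.{u}) (x : ZFSet.{u}) (m : Ordinal.{u}) :
    Set Ordinal.{u} :=
  {c | (∀ b, b ∈ Sc en x c → b < L.ord → b < m) ∧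
    ∀ c' < c, ∃ b < L.ord, ¬ (b ∈ Sc en x c' ↔ b ∈ Sc en x c)}

/-- the number of these codes -/
theorem bm_lt {en : Ordinal.{u} → ZFSet.{u}} {L : Cardinal.{u}}
    (lim : ∀ c < L, (2 : Cardinal.{u}) ^ c < L) {x : ZFSet.{u}} {m i c : Ordinal.{u}}
    (hm : m < L.ord) (h : nth (Bm en L x m) i c) : i < L.ord := by
  by_contra hge
  rw [not_lt] at hge
  obtain ⟨-, g, hg1, hg2, -⟩ := h
  let F : Iio i → Set (Iio m) := fun k => {b | b.1 ∈ Sc en x (g k.1)}
  have key : ∀ k k' : Iio i, k.1 < k'.1 → F k ≠ F k' := by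
    intro k k' hk he
    have h1 := (hg2 k.1 k.2).1
    have h2 := (hg2 k'.1 k'.2).1
    obtain ⟨b, hb, hn⟩ := h2.2 (g k.1) (hg1 _ _ hk k'.2)
    have hbm : b < m := by
      by_contra hbm
      refine hn ⟨fun h3 => absurd (h1.1 b h3 hb) hbm, fun h3 => absurd (h2.1 b h3 hb) hbm⟩
    have h4 : (⟨b, hbm⟩ : Iio m) ∈ F k ↔ (⟨b, hbm⟩ : Iio m) ∈ F k' := by rw [he]
    exact hn h4
  have hF : Function.Injective F := by
    intro k k' he
    rcases lt_trichotomy k.1 k'.1 with h | h | h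
    · exact absurd he (key k k' h)
    · exact Subtype.ext h
    · exact absurd he.symm (key k' k h)
  have h3 := Cardinal.mk_le_of_injective hF
  rw [Cardinal.mk_Iio_ordinal, Cardinal.mk_set, Cardinal.mk_Iio_ordinal,
    ← Cardinal.lift_two_power, Cardinal.lift_le] at h3
  have h4 : m.card < L := Cardinal.lt_ord.1 hm
  have h6 : L ≤ i.card := Cardinal.ord_le.1 hge
  exact absurd (lim m.card h4) (not_lt.2 (h6.trans h3))

/-- each set of ordinals below `m` has a least code -/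
theorem bm_idx (hodx : T_ODX.{u}) {en : Ordinal.{u} → ZFSet.{u}} (hen : EN en) {L : Cardinal.{u}}
    (lim : ∀ c < L, (2 : Cardinal.{u}) ^ c < L) {x : ZFSet.{u}} (hx : Bdx L x) {m : Ordinal.{u}}
    (hm : m < L.ord) (s : Set Ordinal.{u}) (hs : ∀ b ∈ s, b < m) :
    ∃ i < L.ord, ∃ c, nth (Bm en L x m) i c ∧ ∀ b < L.ord, (b ∈ Sc en x c ↔ b ∈ s) := by
  have h1 : NF.ODp x (os m s) := hx.bd m hm _ fun z hz => by
    unfold os at hz
    exact (ZFSet.mem_sep.1 hz).1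
  obtain ⟨c1, hc1⟩ := (hodx en hen x L.ord).2.1 _ h1
  have hc1' : ∀ b < L.ord, (b ∈ Sc en x c1 ↔ b ∈ s) := by
    intro b hb
    rw [hc1 b hb]
    unfold os
    rw [ZFSet.mem_sep, rank_toZFSet, toZFSet_mem_toZFSet_iff]
    exact ⟨fun h => h.2, fun h => ⟨hs b h, h⟩⟩
  let A : Set Ordinal.{u} := {c | ∀ b < L.ord, (b ∈ Sc en x c ↔ b ∈ s)}
  have hA : A.Nonempty := ⟨c1, hc1'⟩
  have hmem : sInf A ∈ A := csInf_mem hA
  have hB : sInf A ∈ Bm en L x m := by
    refine ⟨fun b hb hbL => hs b ((hmem b hbL).1 hb), fun c' hc' => ?_⟩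
    by_contra hcon
    push Not at hcon
    have : c' ∈ A := fun b hb => (hcon b hb).trans (hmem b hb)
    exact absurd hc' (not_lt.2 (csInf_le' this))
  obtain ⟨i, -, hi⟩ := (HD.All.vh (Bm en L x m)).1 _ hB
  exact ⟨i, bm_lt lim hm hi, sInf A, hi, hmem⟩

/-- the least codes are definable -/
theorem dx_Bm (hdxs : T_DXS.{u}) {en : Ordinal.{u} → ZFSet.{u}} (hen : EN en) (L : Cardinal.{u}) :
    DX fun x w => w 0 ∈ Bm en L x (w 1) := by
  have hS : ∀ i j : ℕ, DX fun (x : ZFSet.{u}) w => w i ∈ Sc en x (w j) := fun i j =>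
    ((hdxs en hen).1.ren fun n => if n = 0 then i else j).congr fun x w => Iff.rfl
  refine DX.and ?_ ?_
  · refine DX.all (S := fun b x w => b ∈ Sc en x (w 0) → b < L.ord → b < w 1) ?_
    exact (hS 0 1).imp ((DX.o (DO.ltc 0 L.ord)).imp (DX.o (DO.lt 0 2)))
  · refine DX.allLt (S := fun c' x w => ∃ b < L.ord, ¬ (b ∈ Sc en x c' ↔ b ∈ Sc en x (w 0))) 0 ?_
    refine DX.exLtc (S := fun b x w => ¬ (b ∈ Sc en x (w 0) ↔ b ∈ Sc en x (w 1))) L.ord ?_
    exact ((hS 0 1).iff (hS 0 2)).not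

/-- their enumeration is definable -/
theorem dx_nBm (hdxs : T_DXS.{u}) (hdxn : T_DXN.{u}) {en : Ordinal.{u} → ZFSet.{u}} (hen : EN en)
    (L : Cardinal.{u}) (i j k : ℕ) :
    DX fun x w => nth (Bm en L x (w k)) (w i) (w j) :=
  (dx_nth hdxn (dx_Bm hdxs hen L) i j (fun _ => k)).congr fun _ _ => Iff.rfl

end Pool.Agent.H13.SD
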